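import Mathlib
import Pool.Agent.U128.Reflexive

/-!
# MP_f981b0_an: how an operator without invariant subspaces moves the half-spaces

Let `T` be a bounded operator on a complex Banach space `X` without nontrivial closed invariant
subspaces. A half-space is a closed subspace `Y` of infinite dimension and infinite codimension, and the
defect of `R` on `Y` is the dimension of `(R Y + Y) / Y`.

1. If `X` is reflexive and of infinite dimension, there is a half-space `Y` such that for EVERY
   polynomial `p` the defect of `p(T)` on `Y` is exactly the degree of `p`.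
2. The same holds for every half-space on which `T` has defect one (for such half-spaces on
   arbitrary Banach spaces see Tcaciuc 2019).
3. If `T` has finite defect `d` on the half-space `Y`, then the defects `D(p)` of the operators `p(T)` on
   `Y` satisfy `deg p - C ≤ D(p) ≤ d deg p` with `C` independent of `p`. Uniformly in `Y`: for all
   polynomials `p₁, p₂, ...` of degrees `1, 2, ...` and all `c` some `k ≤ (c + 1) (d + 1) ^ (d - 1)` has
   `D(p_k) > c`.

So `T` has an invariant subspace as soon as on some half-space of defect one some polynomial `p(T)` has a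
defect smaller than the degree, or as soon as `T` has a finite defect on some half-space on which the
powers of `T` have bounded defects, or defects growing slower than `(1 - ε) n`.

Proof. `A n = Y + T Y + ... + T ^ n Y` is closed, so `A (n + 1) ≠ A n`, and `T` maps `A (n + 1) / A n`
onto `A (n + 2) / A (n + 1)`, so that the dimensions decrease; where they are constant, `T` is injective
between the quotients. There, if `x ∈ Y` and `i` is the first number with `T ^ i x ∉ Y`, then the vectors
`T ^ j x`, `j ≥ i`, lie in `A (j - i + 1)` and not in `A (j - i)`, and so `p(T) x ∉ Y` for all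
polynomials `p` of degree at least `i`. Therefore `{x ∈ Y : p(T) x ∈ Y}` is the set of the `x` with
`x, T x, ..., T ^ n x ∈ Y`. These sets strictly decrease with `n`, since otherwise one of them is
an invariant subspace. In general one replaces `Y` by `A m`, where the dimensions are constant from `m` on,
resp. uses that they are constant on a long interval. For the existence in 1 let the points `μ n` of the
resolvent set tend to a spectral value and let `(μ n - T)⁻¹ e` be unbounded; since `T` has no
eigenvalues, the normalised vectors have a basic subsequence by Mazur's method, and every second vector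
is taken (Androulakis, Popov, Tcaciuc, Troitsky 2009; Popov, Tcaciuc 2013).
-/

set_option autoImplicit false

namespace Pool.Agent.Results.MP_f981b0_an.DefectGrowth

open Pool.Agent.U128

universe u

/-- **Operators without invariant subspaces move half-spaces at linear speed**, exactly by the degree for
half-spaces of defect one, which exist if `X` is reflexive. -/
theorem result (X : Type u) [NormedAddCommGroup X] [NormedSpace ℂ X] [CompleteSpace X]
    (T : X →L[ℂ] X)
    (hT : ∀ Z : Submodule ℂ X, IsClosed (Z : Set X) → (∀ x ∈ Z, T x ∈ Z) → Z = ⊥ ∨ Z = ⊤) :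
    (¬ FiniteDimensional ℂ X →
      Function.Surjective (NormedSpace.inclusionInDoubleDual ℂ X) →
      ∃ Y : Submodule ℂ X, IsClosed (Y : Set X) ∧
        ¬ FiniteDimensional ℂ Y ∧ ¬ FiniteDimensional ℂ (X ⧸ Y) ∧
        ∀ p : Polynomial ℂ, ClosedAlg.defect (Polynomial.aeval T p) Y = p.natDegree) ∧
    (∀ Y : Submodule ℂ X, IsClosed (Y : Set X) →
      ¬ FiniteDimensional ℂ Y → ¬ FiniteDimensional ℂ (X ⧸ Y) →
      (ClosedAlg.defect T Y = 1 →
        ∀ p : Polynomial ℂ, ClosedAlg.defect (Polynomial.aeval T p) Y = p.natDegree) ∧
      (∀ d : ℕ, ClosedAlg.defect T Y = d →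
        (∃ C : ℕ, ∀ p : Polynomial ℂ,
          (p.natDegree : Cardinal) ≤ ClosedAlg.defect (Polynomial.aeval T p) Y + C) ∧
        (∀ p : Polynomial ℂ,
          ClosedAlg.defect (Polynomial.aeval T p) Y ≤ (d * p.natDegree : ℕ)) ∧
        (∀ P : ℕ → Polynomial ℂ, (∀ k, (P k).natDegree = k) → ∀ c : ℕ,
          ∃ k ≤ (c + 1) * (d + 1) ^ (d - 1),
            (c : Cardinal) < ClosedAlg.defect (Polynomial.aeval T (P k)) Y))) := by
  refine ⟨fun hX hrefl => ?_, fun Y hY h1 h2 => ⟨fun h p => ?_, fun d hd => ?_⟩⟩
  · obtain ⟨Y, hY, hd⟩ := Reflexive.exists_half hX hrefl hT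
    refine ⟨Y, hY.closed, hY.inf, hY.coinf, fun p => Transitive.exact_one hT hY ?_ p⟩
    refine le_antisymm hd ?_
    rw [Cardinal.one_le_iff_ne_zero]
    intro h0
    obtain ⟨h3, h4⟩ := (ClosedAlg.defect_le_iff T Y 0).1 (by rw [h0]; exact_mod_cast le_rfl)
    have h5 : Y.map (T : X →ₗ[ℂ] X) ≤ Y := by
      by_contra hne
      have := Growth.rd_pos h3 hne
      omega
    rcases hT Y hY.closed (fun x hx => h5 (Submodule.mem_map_of_mem hx)) with h6 | h6
    · apply hY.inf
      rw [h6]
      infer_instance
    · exact hY.ne_top h6
  · exact Transitive.exact_one hT ⟨hY, h1, h2⟩ h p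
  · exact Transitive.asymptotic hT ⟨hY, h1, h2⟩ d hd

end Pool.Agent.Results.MP_f981b0_an.DefectGrowth
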