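import Pool.Agent.U667.QN.Main
import Pool.Agent.U667.CP.Cheb

/-!
# How many operators on a line `A + z K` may lack an invariant subspace? (MP_f981b0_an)

Let `X` be an infinite dimensional complex Banach space and `A` an arbitrary bounded operator on `X`.
The theorem bounds the set of the couplings `z` for which the existence of a nontrivial closed
(hyper)invariant subspace of `A + z K` is left open, `K` being an arbitrary compact operator.

Let `E` be the set of the `z ∈ ℂ` such that the spectrum of `A + z K` is contained in the polynomially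
convex hull of the spectrum of `A` (the union of `σ(A)` and of all bounded components of its
complement).

1. If `z` is not in `E`, then `A + z K` has an eigenvalue outside of the hull of `σ(A)`, and the
   eigenspace is a nontrivial closed hyperinvariant subspace of `A + z K`.
2. `cap E ≤ cap σ(A) / r(K)`, where `cap` is the logarithmic capacity and `r(K)` is the spectral radius.
3. Let `K = f(·) u` have rank one. Either all the operators `A + z K` have a common nontrivial closed
   invariant subspace; or `E` is bounded and, if `k` is the least number with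
   `c = f(A^k u) ≠ 0`, then `cap E ≤ (cap σ(A))^(k+1) / |c|`.
   (For the unilateral shift `A = S`, `u = e_0` and `f = c e_k` there is equality.)
4. So if `σ(A)` is countable, and if `K` is not quasinilpotent or has rank one, then all `A + z K` have a
   common nontrivial closed invariant subspace, or `A + z K` has a nontrivial closed hyperinvariant
   subspace for all `z` outside of a set of capacity zero.
5. If `F 1, …, F m` have finite rank, then the set of the `z ∈ ℂ^m` for which
   `A + z 1 F 1 + … + z m F m` is quasinilpotent is an algebraic subset of `ℂ^m`; if `m = 1` and `F` has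
   rank `r`, it is `ℂ` or has at most `2 r` points.
6. If `A + F₀` is quasinilpotent for some `F₀` of finite rank, then either all the operators
   `A + z 1 F 1 + … + z m F m` and `z 1 F 1 + … + z m F m` are quasinilpotent, or for all `z` outside the
   zero set of a nonzero polynomial `A + z 1 F 1 + … + z m F m` has a nonzero eigenvalue and a
   nontrivial closed hyperinvariant subspace.

The capacity of `σ(A)` enters as the Chebyshev constant (`ChebyshevLE σ ρ`), with which it coincides
for compact sets (Fekete, Szegő). That the capacity of `E` is at most `κ` is stated as `CapLE E κ`: if a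
probability measure without atoms on a bounded part of `E` has a logarithmic potential that is at least
`b` everywhere, then `exp b ≤ κ` (for a compact set the equilibrium measure has this property with
`exp b` equal to the capacity, by Frostman).

Proof of 2 and 3. Let `p` be monic of degree `n` and small on `σ(A)`, hence on the spectrum of `A + z K`
for `z ∈ E`. For `z ∈ E` the numbers `g(p(A + z K)^N (A + z K)^k u)` are `O(m^N)`, and they are
polynomials in `z` of known degree with known leading coefficient `κ^(n N) g(u)`, resp.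
`c^(n' N + 1)` with `n = (k + 1) n'`; the last one by a combinatorial analysis of the words in `A` and `K`
(in rank one the words of maximal degree in `z` are those in which all blocks of `A` have length `k`).
Integrating the logarithm against a measure with potential `≥ b` and letting `N → ∞` (dominated
convergence, since Gelfand's formula is not uniform in `z`) gives the inequalities.

Proof of 5 and 6. Let `A` be quasinilpotent (otherwise one moves the base point). `1 - w (A + F(z))` is
invertible if and only if a certain determinant `D(w, z)`, entire in `w` and polynomial in `z`, is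
nonzero. All the functions `D(·, z)` lie in a space of finite dimension and are `1` at `w = 0`, and by
Borel's theorem distinct zero-free entire functions with value `1` at `0` are linearly independent. So
only finitely many zero-free functions occur, and for each of them the equation `D(·, z) = e` is a system
of polynomial equations for `z`.
-/

set_option autoImplicit false

open MeasureTheory

namespace Pool.Agent.Results.MP_f981b0_an.ExceptionalPerturbations

variable {X : Type} [NormedAddCommGroup X] [NormedSpace ℂ X] [CompleteSpace X]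

/-- `S` has a closed subspace, neither `{0}` nor `X`, which is invariant under every bounded operator
commuting with `S` (among them `S`). -/
def HasHyperinvariantSubspace (S : X →L[ℂ] X) : Prop :=
  ∃ V : Submodule ℂ X, IsClosed (V : Set X) ∧ V ≠ ⊥ ∧ V ≠ ⊤ ∧
    ∀ B : X →L[ℂ] X, B * S = S * B → ∀ x ∈ V, B x ∈ V

/-- The operators `A + z K`, `z ∈ ℂ`, have a common closed invariant subspace, neither `{0}` nor `X`. -/
def CommonInvariantSubspace (A K : X →L[ℂ] X) : Prop :=
  ∃ V : Submodule ℂ X, IsClosed (V : Set X) ∧ V ≠ ⊥ ∧ V ≠ ⊤ ∧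
    ∀ z : ℂ, ∀ x ∈ V, (A + z • K) x ∈ V

/-- The polynomially convex hull of the spectrum of `A`: all `l` such that
`|p(l)| ≤ max {|p(n)| : n ∈ σ(A)}` for all polynomials `p`. -/
def hull (A : X →L[ℂ] X) : Set ℂ :=
  {l | ∀ p : Polynomial ℂ, ∃ n ∈ spectrum ℂ A, ‖p.eval l‖ ≤ ‖p.eval n‖}

/-- The set of the exceptional couplings. -/
def Exceptional (A K : X →L[ℂ] X) : Set ℂ := {z | spectrum ℂ (A + z • K) ⊆ hull A}

/-- The Chebyshev constant (the logarithmic capacity) of the compact set `S` is at most `ρ`. -/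
def ChebyshevLE (S : Set ℂ) (ρ : ℝ) : Prop :=
  ∀ ε : ℝ, 0 < ε → ∃ p : Polynomial ℂ, p.Monic ∧ 0 < p.natDegree ∧
    ∀ x ∈ S, ‖p.eval x‖ ≤ (ρ + ε) ^ p.natDegree

/-- The (inner) logarithmic capacity of `E` is at most `κ`: `exp b ≤ κ` whenever a probability measure
without atoms, carried by a bounded subset of `E`, has a logarithmic potential that exists and is at
least `b` at all points of the plane. -/
def CapLE (E : Set ℂ) (κ : ℝ) : Prop :=
  ∀ μ : Measure ℂ, IsProbabilityMeasure μ → (∀ z, μ {z} = 0) → (∃ R : ℝ, ∀ᵐ z ∂μ, ‖z‖ ≤ R) →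
    (∀ᵐ z ∂μ, z ∈ E) → ∀ b : ℝ,
    (∀ ζ : ℂ, Integrable (fun z => Real.log ‖ζ - z‖) μ ∧ b ≤ ∫ z, Real.log ‖ζ - z‖ ∂μ) →
    Real.exp b ≤ κ

/-- `T` is quasinilpotent: its spectrum contains no nonzero number. -/
def Quasinilpotent (T : X →L[ℂ] X) : Prop := spectrum ℂ T ⊆ {0}

/-- `F` has finite rank. -/
def FiniteRank (F : X →L[ℂ] X) : Prop :=
  FiniteDimensional ℂ (LinearMap.range (F : X →ₗ[ℂ] X))

/-- The rank of an operator of finite rank. -/
noncomputable def rank (F : X →L[ℂ] X) : ℕ :=
  Module.finrank ℂ (LinearMap.range (F : X →ₗ[ℂ] X))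

/-- For all `z` outside the zero set of a nonzero polynomial the operator `A + ∑ z i F i` has a nonzero
eigenvalue and a nontrivial closed hyperinvariant subspace. -/
def GenericallyHyperinvariant (A : X →L[ℂ] X) {m : ℕ} (F : Fin m → (X →L[ℂ] X)) : Prop :=
  ∃ p : MvPolynomial (Fin m) ℂ, p ≠ 0 ∧ ∀ z : Fin m → ℂ, MvPolynomial.eval z p ≠ 0 →
    (∃ l : ℂ, l ≠ 0 ∧ ∃ x : X, x ≠ 0 ∧ (A + ∑ i, z i • F i) x = l • x) ∧
      HasHyperinvariantSubspace (A + ∑ i, z i • F i)

/-- Outside of the exceptional set there is an eigenvalue outside of the hull of `σ(A)`, and a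
nontrivial closed hyperinvariant subspace. -/
theorem off_exceptional (hX : ¬ FiniteDimensional ℂ X) (A K : X →L[ℂ] X) (hK : IsCompactOperator K)
    (z : ℂ) (hz : z ∉ Exceptional A K) :
    (∃ l : ℂ, l ∉ hull A ∧ ∃ x : X, x ≠ 0 ∧ (A + z • K) x = l • x) ∧
      HasHyperinvariantSubspace (A + z • K) := by
  obtain ⟨l, hl, ⟨x, hx0, hx⟩, hne⟩ := Pool.Agent.U667.CP.outside hX A K hK hz
  refine ⟨⟨l, hl, x, hx0, hx⟩, ?_⟩
  refine ⟨LinearMap.ker ((A + z • K - l • (1 : X →L[ℂ] X) : X →L[ℂ] X) : X →ₗ[ℂ] X),
    ContinuousLinearMap.isClosed_ker _, ?_, ?_, ?_⟩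
  · intro h
    have h1 : x ∈ LinearMap.ker ((A + z • K - l • (1 : X →L[ℂ] X) : X →L[ℂ] X) : X →ₗ[ℂ] X) := by
      change (A + z • K) x - l • x = 0
      rw [hx, sub_self]
    rw [h, Submodule.mem_bot] at h1
    exact hx0 h1
  · intro h
    apply hne
    rw [← sub_eq_zero]
    ext y
    have h1 : y ∈ LinearMap.ker ((A + z • K - l • (1 : X →L[ℂ] X) : X →L[ℂ] X) : X →ₗ[ℂ] X) := by
      rw [h]
      trivial
    exact h1
  · intro B hB y hy
    change (A + z • K) (B y) - l • B y = 0
    have h1 : (A + z • K) y - l • y = 0 := hy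
    have h2 : (A + z • K) (B y) = B ((A + z • K) y) := by
      change ((A + z • K) * B) y = (B * (A + z • K)) y
      rw [hB]
    rw [h2, sub_eq_zero.1 h1, map_smul, sub_self]

theorem generic (hX : ¬ FiniteDimensional ℂ X) (T : X →L[ℂ] X) {m : ℕ} (F : Fin m → (X →L[ℂ] X))
    (hF : ∀ i, FiniteRank (F i)) (F₀ : X →L[ℂ] X) (hF₀ : FiniteRank F₀)
    (h₀ : Quasinilpotent (T + F₀)) (hne : ∃ z : Fin m → ℂ, ¬ Quasinilpotent (T + ∑ i, z i • F i)) :
    GenericallyHyperinvariant T F := by
  obtain ⟨S, hS⟩ := Pool.Agent.U667.QN.algebraic T F hF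
  obtain ⟨z1, hz1⟩ := hne
  have h1 : ∃ p ∈ S, MvPolynomial.eval z1 p ≠ 0 := by
    by_contra hcon
    push Not at hcon
    exact hz1 ((hS z1).2 hcon)
  obtain ⟨p, hp, hpz⟩ := h1
  refine ⟨p, ?_, ?_⟩
  · rintro rfl
    simp at hpz
  · intro z hz
    have h2 : ¬ Pool.Agent.U667.QN.QNil (T + ∑ i, z i • F i) := by
      intro h3
      exact hz ((hS z).1 h3 p hp)
    -- enlarge the family by `F₀`
    have h4 : Pool.Agent.U667.QN.HasEig (T + ∑ i, z i • F i) := by
      let G : Fin (m + 1) → (X →L[ℂ] X) := Fin.cons F₀ F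
      have hG : ∀ i, Pool.Agent.U667.QN.FR (G i) := by
        intro i
        refine Fin.cases ?_ (fun j => ?_) i
        · exact hF₀
        · exact hF j
      have e1 : ∀ (c : ℂ) (y : Fin m → ℂ),
          T + ∑ i, (Fin.cons c y : Fin (m + 1) → ℂ) i • G i = T + (c • F₀ + ∑ i, y i • F i) := by
        intro c y
        rw [Fin.sum_univ_succ]
        simp [G]
      have h5 := Pool.Agent.U667.QN.eig_of_family T G hG (Fin.cons 1 0) (by
        have h₀' : Pool.Agent.U667.QN.QNil (T + F₀) := h₀
        rw [e1]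
        simpa using h₀') (Fin.cons 0 z) (by
        rw [e1]
        simpa using h2)
      rw [e1] at h5
      simpa using h5
    refine ⟨?_, h4.hyp hX⟩
    obtain ⟨l, hl, V, hV, hVne, -⟩ := h4
    obtain ⟨x, hx, hx0⟩ := Submodule.exists_mem_ne_zero_of_ne_bot hVne
    exact ⟨l, hl, x, hx0, (hV x).1 hx⟩

theorem finiteRank_sum {m : ℕ} (F : Fin m → (X →L[ℂ] X)) (hF : ∀ i, FiniteRank (F i))
    (z : Fin m → ℂ) : FiniteRank (∑ i, z i • F i) := by
  obtain ⟨r, u, φ, hφ⟩ := Pool.Agent.U667.QN.factor_family F hF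
  have h1 : (∑ i, z i • F i) = Pool.Agent.U667.QN.fin u (fun j => ∑ i, z i • φ i j) := by
    simp only [hφ, Pool.Agent.U667.QN.sum_fin]
  rw [h1]
  have : FiniteDimensional ℂ (Submodule.span ℂ (Set.range u)) :=
    FiniteDimensional.span_of_finite ℂ (Set.finite_range u)
  refine Submodule.finiteDimensional_of_le (S₂ := Submodule.span ℂ (Set.range u)) ?_
  rintro _ ⟨x, rfl⟩
  show Pool.Agent.U667.QN.fin u (fun j => ∑ i, z i • φ i j) x ∈ _
  rw [Pool.Agent.U667.QN.fin_apply]
  exact Submodule.sum_mem _ fun j _ => Submodule.smul_mem _ _ (Submodule.subset_span ⟨j, rfl⟩)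

/-- Invariant subspaces on the lines `A + z K` through an arbitrary operator `A`. -/
theorem result (hX : ¬ FiniteDimensional ℂ X) (A : X →L[ℂ] X) :
    (∀ K : X →L[ℂ] X, IsCompactOperator K →
      -- 1. off the exceptional set
      (∀ z : ℂ, z ∉ Exceptional A K →
        (∃ l : ℂ, l ∉ hull A ∧ ∃ x : X, x ≠ 0 ∧ (A + z • K) x = l • x) ∧
          HasHyperinvariantSubspace (A + z • K)) ∧
      -- 2. `cap E ≤ cap σ(A) / r(K)`
      (∀ ρ : ℝ, 0 ≤ ρ → ChebyshevLE (spectrum ℂ A) ρ → ∀ κ ∈ spectrum ℂ K, κ ≠ 0 →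
        CapLE (Exceptional A K) (ρ / ‖κ‖)) ∧
      -- 3. rank one
      (∀ (f : X →L[ℂ] ℂ) (u : X), K = f.smulRight u → f ≠ 0 → u ≠ 0 →
        CommonInvariantSubspace A K ∨
        (Bornology.IsBounded (Exceptional A K) ∧
          ∃ k : ℕ, f ((A ^ k) u) ≠ 0 ∧ (∀ i < k, f ((A ^ i) u) = 0) ∧
            ∀ ρ : ℝ, 0 ≤ ρ → ChebyshevLE (spectrum ℂ A) ρ →
              CapLE (Exceptional A K) (ρ ^ (k + 1) / ‖f ((A ^ k) u)‖))) ∧
      -- 4. countable spectrum
      ((spectrum ℂ A).Countable →
        ((∃ κ ∈ spectrum ℂ K, κ ≠ 0) ∨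
          ∃ (f : X →L[ℂ] ℂ) (u : X), K = f.smulRight u ∧ f ≠ 0 ∧ u ≠ 0) →
        CommonInvariantSubspace A K ∨ CapLE (Exceptional A K) 0)) ∧
    -- 5. the quasinilpotent locus of a family of finite rank perturbations is algebraic
    (∀ (m : ℕ) (F : Fin m → (X →L[ℂ] X)), (∀ i, FiniteRank (F i)) →
      ∃ S : Finset (MvPolynomial (Fin m) ℂ), ∀ z : Fin m → ℂ,
        Quasinilpotent (A + ∑ i, z i • F i) ↔ ∀ p ∈ S, MvPolynomial.eval z p = 0) ∧
    (∀ F : X →L[ℂ] X, FiniteRank F →
      {z : ℂ | Quasinilpotent (A + z • F)} = Set.univ ∨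
      {z : ℂ | Quasinilpotent (A + z • F)}.encard ≤ (2 * rank F : ℕ)) ∧
    -- 6. generic finite rank perturbations
    (∀ (m : ℕ) (F : Fin m → (X →L[ℂ] X)), (∀ i, FiniteRank (F i)) →
      (∃ F₀ : X →L[ℂ] X, FiniteRank F₀ ∧ Quasinilpotent (A + F₀)) →
      (∀ z : Fin m → ℂ, Quasinilpotent (A + ∑ i, z i • F i) ∧ Quasinilpotent (∑ i, z i • F i)) ∨
      GenericallyHyperinvariant A F) := by
  have : Nontrivial X := by
    by_contra hcon
    rw [not_nontrivial_iff_subsingleton] at hcon
    exact hX inferInstance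
  have part2 : ∀ K : X →L[ℂ] X, IsCompactOperator K →
      ∀ ρ : ℝ, 0 ≤ ρ → ChebyshevLE (spectrum ℂ A) ρ → ∀ κ ∈ spectrum ℂ K, κ ≠ 0 →
      CapLE (Exceptional A K) (ρ / ‖κ‖) := by
    intro K hK ρ hρ0 hρ κ hκ hκ0
    obtain ⟨u, hu0, hu⟩ := Pool.Agent.U667.CP.compact_eigen K hK hκ0 hκ
    exact Pool.Agent.U667.CP.cap_eigen A K hκ0 hu0 hu hρ0 hρ
  have part3 : ∀ (K : X →L[ℂ] X) (f : X →L[ℂ] ℂ) (u : X), K = f.smulRight u → f ≠ 0 → u ≠ 0 →
      CommonInvariantSubspace A K ∨
      (Bornology.IsBounded (Exceptional A K) ∧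
        ∃ k : ℕ, f ((A ^ k) u) ≠ 0 ∧ (∀ i < k, f ((A ^ i) u) = 0) ∧
          ∀ ρ : ℝ, 0 ≤ ρ → ChebyshevLE (spectrum ℂ A) ρ →
            CapLE (Exceptional A K) (ρ ^ (k + 1) / ‖f ((A ^ k) u)‖)) := by
    intro K f u hKf hf hu
    have hK' : ∀ x, K x = f x • u := by
      intro x
      rw [hKf]
      rfl
    by_cases hall : ∀ i, f ((A ^ i) u) = 0
    · exact Or.inl (Pool.Agent.U667.CP.common A K hf hu hK' hall)
    · right
      push Not at hall
      classical
      let k := Nat.find hall
      have hk : f ((A ^ k) u) ≠ 0 := Nat.find_spec hall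
      have hk' : ∀ i < k, f ((A ^ i) u) = 0 := fun i hi => by
        by_contra hcon
        exact Nat.find_min hall hi hcon
      constructor
      · obtain ⟨R, hR⟩ := Pool.Agent.U667.CP.exc_bounded A K hK' hk
        exact isBounded_iff_forall_norm_le.2 ⟨R, hR⟩
      · refine ⟨k, hk, hk', fun ρ hρ0 hρ => ?_⟩
        exact Pool.Agent.U667.CP.cap_rank_one A K hK' hk' hk hρ0 hρ
  refine ⟨fun K hK => ⟨off_exceptional hX A K hK, part2 K hK, part3 K, ?_⟩,
    fun m F hF => Pool.Agent.U667.QN.algebraic A F hF,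
    fun F hF => Pool.Agent.U667.QN.line A F hF, ?_⟩
  · intro hcount hcase
    have hcheb : ChebyshevLE (spectrum ℂ A) 0 :=
      Pool.Agent.U667.CP.chebyshev_countable (spectrum.isCompact A) hcount
    rcases hcase with ⟨κ, hκ, hκ0⟩ | ⟨f, u, hKf, hf, hu⟩
    · right
      have := part2 K hK 0 le_rfl hcheb κ hκ hκ0
      rwa [zero_div] at this
    · rcases part3 K f u hKf hf hu with h | ⟨-, k, hk, -, h⟩
      · exact Or.inl h
      · right
        have := h 0 le_rfl hcheb
        rwa [zero_pow (Nat.succ_ne_zero k), zero_div] at this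
  · rintro m F hF ⟨F₀, hF₀, h₀⟩
    by_cases hall : ∀ z : Fin m → ℂ, Quasinilpotent (A + ∑ i, z i • F i)
    · left
      intro z
      refine ⟨hall z, ?_⟩
      refine Pool.Agent.U667.QN.qnil_of_line (T := A) (finiteRank_sum F hF z) fun ζ => ?_
      have h1 := hall (fun i => ζ * z i)
      rw [Finset.smul_sum]
      simp only [smul_smul]
      exact h1
    · right
      push Not at hall
      exact generic hX A F hF F₀ hF₀ h₀ hall

end Pool.Agent.Results.MP_f981b0_an.ExceptionalPerturbations
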