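import Pool.Agent.U524.RO.Finite

/-!
# Generic rank one perturbations on arbitrary Banach spaces (MP_f981b0_an)

Let `X` be an infinite dimensional complex Banach space and `T` an arbitrary bounded operator on `X`.
For `u ∈ X` and `v ∈ X*` let `T + u ⊗ v` be the operator `x ↦ T x + v(x) u`. Generic means: for all
points of a comeager (residual) set.

1. For generic `(u, v) ∈ X × X*` the simple eigenvalues of `T + u ⊗ v` outside the spectrum `σ(T)`
   accumulate at every point of the boundary of `σ(T)` that is not a pole of the resolvent of `T`.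
   Simple means: the eigenspace is one-dimensional and has a closed complement, both hyperinvariant.
2. If `T` is not annihilated by a nonzero polynomial then for generic `(u, v)` the operator `T + u ⊗ v`
   has infinitely many simple eigenvalues outside `σ(T)`, and the lattice of its closed hyperinvariant
   subspaces contains an order copy of the power set of `ℕ`, with subspaces of infinite dimension and
   infinite codimension (hyperinvariant half-spaces). This is proved for norm continuous families
   `T_p`, `p ∈ P`, and generic `(p, u, v) ∈ P × X × X*`.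
3. The same for generic perturbations `∑ u_i ⊗ v_i` of rank at most `n + 1`, for every `n`.
4. For generic `(u, v)` and generic `c ∈ ℂ` the same holds for `T + c (u ⊗ v)`.
5. For all bounded `T` (and norm continuous families `T_p`) the set of all `(u, v)` (of all `(p, u, v)`)
   for which the perturbed operator has a simple eigenvalue outside `σ(T)`, hence a nontrivial closed
   hyperinvariant subspace, contains an open dense set.

Tcaciuc proved that every bounded operator on an infinite dimensional Banach space has, for every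
`ε > 0`, *some* perturbation of rank at most one and norm at most `ε` with an invariant half-space.

Proof. Let `R(z) = (z - T)⁻¹` and `F(z) = v(R(z) u)`. If `F(z) = 1` and `F'(z) ≠ 0` then `z` is a simple
eigenvalue of `T + u ⊗ v`, with eigenvector `R(z) u` and eigenfunctional `v ∘ R(z)`, and it persists
under small changes of `T`, `u`, `v` (an argument of Hurwitz type). For the density let `F ≠ 1` at all points
of `N ∖ σ(T)` for all `(u, v)` with distance less than `ε` from `(u₀, v₀)`, where `N` is a neighbourhood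
of a boundary point `w` of `σ(T)`. For fixed `z` the function `(a, b) ↦ F(z) - 1` at
`(u₀ + a u', v₀ + b v')` is a polynomial of bidegree `(1, 1)` without zeros for `|a|, |b| < ε`, so its
`ab`-coefficient `v'(R(z) u')` is at most `3 ε⁻² |F₀(z) - 1|`. Hence `‖R(z)‖ ≤ 3 ε⁻² |F₀(z) - 1|`, and
`g = 1 / (F₀ - 1)`, which is holomorphic on `N ∖ σ(T)`, satisfies `|g(z)| ≤ 3 ε⁻² |z - a|` for all `a ∈ σ(T)`.
If `w` is an accumulation point of `σ(T)`, then the maximum principle for `g (g / ∏ (z - a_j))^k` with
many points `a_j ∈ σ(T)` near `w` gives `g = 0` near `w`, a contradiction. If `w` is isolated in `σ(T)`, then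
`g` extends to `w` and has a zero of finite order there, so `w` is a pole of `R`. If all boundary points
of `σ(T)` are poles, then `σ(T)` is finite and `T` is algebraic, by Liouville's theorem. For statement 5
the maximum principle is applied on the unbounded component of the complement of `σ(T)`, where
`F₀(z) - 1` takes values in the unit disc near infinity when `v₀(u₀) ≠ 0`.
-/

set_option autoImplicit false

open Filter Topology

universe u w

namespace Pool.Agent.Results.MP_f981b0_an.GenericRankOne

variable {X : Type u} [NormedAddCommGroup X] [NormedSpace ℂ X]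

/-- `V` is invariant under every bounded operator that commutes with `A` (among them `A`). -/
def Hyperinvariant (A : X →L[ℂ] X) (V : Submodule ℂ X) : Prop :=
  ∀ S : X →L[ℂ] X, S * A = A * S → ∀ x ∈ V, S x ∈ V

/-- `z` is an eigenvalue of `A` whose eigenspace `V` is one-dimensional, hyperinvariant, and has a
closed hyperinvariant complement `W`. -/
def SimpleEigenvalue (A : X →L[ℂ] X) (z : ℂ) : Prop :=
  ∃ V W : Submodule ℂ X, IsClosed (V : Set X) ∧ IsClosed (W : Set X) ∧ IsCompl V W ∧
    Module.finrank ℂ V = 1 ∧ (∀ y, y ∈ V ↔ A y = z • y) ∧ Hyperinvariant A V ∧ Hyperinvariant A W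

/-- There are closed hyperinvariant subspaces `V s` of `A`, one for every set `s` of natural numbers,
with `V s ⊆ V t` if and only if `s ⊆ t`; the dimension of `V s` is infinite if `s` is infinite and its
codimension is infinite if the complement of `s` is infinite. -/
def ManyHyperinvariant (A : X →L[ℂ] X) : Prop :=
  ∃ V : Set ℕ → Submodule ℂ X,
    (∀ s, IsClosed (V s : Set X) ∧ Hyperinvariant A (V s)) ∧
    (∀ s t, V s ≤ V t ↔ s ⊆ t) ∧
    (∀ s, s.Infinite → ¬ FiniteDimensional ℂ (V s)) ∧
    (∀ s, sᶜ.Infinite → ¬ FiniteDimensional ℂ (X ⧸ V s))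

/-- `w` is outside the spectrum of `T` or a pole of the resolvent of `T`: near `w`, except at `w`, the
resolvent exists and its norm is at most `C / |z - w| ^ m`. -/
def IsPole (T : X →L[ℂ] X) (w : ℂ) : Prop :=
  ∃ (m : ℕ) (C : ℝ), ∀ᶠ z in 𝓝[≠] w, z ∉ spectrum ℂ T ∧ ‖z - w‖ ^ m * ‖resolvent T z‖ ≤ C

/-- No nonzero polynomial annihilates `T`. -/
def NonAlgebraic (T : X →L[ℂ] X) : Prop :=
  ∀ p : Polynomial ℂ, Polynomial.aeval T p = 0 → p = 0

theorem simple_of_simp (T : X →L[ℂ] X) (x : X) (v : X →L[ℂ] ℂ) (z : ℂ)
    (h : Pool.Agent.U524.RO.Simp T x v z) :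
    z ∉ spectrum ℂ T ∧ SimpleEigenvalue (T + v.smulRight x) z :=
  ⟨fun hz => hz h.1, Pool.Agent.U524.RO.simple_eigenvalue T x v z h⟩

theorem result (X : Type u) [NormedAddCommGroup X] [NormedSpace ℂ X] [CompleteSpace X]
    (hX : ¬ FiniteDimensional ℂ X) :
    -- 1. accumulation at the boundary of the spectrum
    (∀ T : X →L[ℂ] X, ∀ᶠ q : X × (X →L[ℂ] ℂ) in residual (X × (X →L[ℂ] ℂ)),
      ∀ a ∈ frontier (spectrum ℂ T), ¬ IsPole T a → ∀ N ∈ 𝓝 a,
        ∃ z ∈ N, z ∉ spectrum ℂ T ∧ SimpleEigenvalue (T + q.2.smulRight q.1) z) ∧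
    -- 2. infinitely many eigenvalues and hyperinvariant half-spaces, for families
    (∀ (P : Type w) [TopologicalSpace P] (T : P → (X →L[ℂ] X)), Continuous T →
      (∀ p, NonAlgebraic (T p)) →
      ∀ᶠ q : P × X × (X →L[ℂ] ℂ) in residual (P × X × (X →L[ℂ] ℂ)),
        {z | z ∉ spectrum ℂ (T q.1) ∧
          SimpleEigenvalue (T q.1 + q.2.2.smulRight q.2.1) z}.Infinite ∧
        ManyHyperinvariant (T q.1 + q.2.2.smulRight q.2.1)) ∧
    -- 3. perturbations of rank at most `n + 1`
    (∀ T : X →L[ℂ] X, NonAlgebraic T → ∀ n : ℕ,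
      ∀ᶠ q : Fin (n + 1) → X × (X →L[ℂ] ℂ) in residual (Fin (n + 1) → X × (X →L[ℂ] ℂ)),
        ManyHyperinvariant (T + ∑ i, (q i).2.smulRight (q i).1)) ∧
    -- 4. lines
    (∀ T : X →L[ℂ] X, NonAlgebraic T →
      ∀ᶠ q : X × (X →L[ℂ] ℂ) in residual (X × (X →L[ℂ] ℂ)), ∀ᶠ c : ℂ in residual ℂ,
        ManyHyperinvariant (T + c • q.2.smulRight q.1)) ∧
    -- 5. arbitrary operators
    (∀ (P : Type w) [TopologicalSpace P] (T : P → (X →L[ℂ] X)), Continuous T →
      ∃ G : Set (P × X × (X →L[ℂ] ℂ)), IsOpen G ∧ Dense G ∧ ∀ q ∈ G,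
        ∃ z, z ∉ spectrum ℂ (T q.1) ∧
          SimpleEigenvalue (T q.1 + q.2.2.smulRight q.2.1) z) := by
  have hnt : Nontrivial X := by
    by_contra hcon
    rw [not_nontrivial_iff_subsingleton] at hcon
    exact hX inferInstance
  refine ⟨fun T => ?_, fun P _ T hT hna => ?_, fun T hT n => ?_, fun T hT => ?_, fun P _ T hT => ?_⟩
  · filter_upwards [Pool.Agent.U524.RO.residual_accumulate T] with q hq a ha hp N hN
    obtain ⟨z, hzN, hz⟩ := hq a ha hp N hN
    exact ⟨z, hzN, simple_of_simp _ _ _ _ hz⟩
  · filter_upwards [Pool.Agent.U524.RO.residual_family T hT hna] with q hq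
    exact ⟨hq.mono fun z hz => simple_of_simp _ _ _ _ hz,
      Pool.Agent.U524.RO.many_hyperinvariant _ _ _ hq⟩
  · exact Pool.Agent.U524.RO.residual_rank T hT n
  · filter_upwards [Pool.Agent.U524.RO.residual_lines T hT] with q hq
    filter_upwards [hq] with c hc
    have h1 := Pool.Agent.U524.RO.many_hyperinvariant _ _ _ hc
    have h2 : Pool.Agent.U524.RO.pert T (c • q.1) q.2 = T + c • q.2.smulRight q.1 := by
      ext x
      rw [Pool.Agent.U524.RO.pert_apply]
      show T x + q.2 x • c • q.1 = T x + c • (q.2 x • q.1)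
      rw [smul_comm]
    rw [h2] at h1
    exact h1
  · refine ⟨Pool.Agent.U524.RO.GP T Set.univ,
      Pool.Agent.U524.RO.GP_open T hT _ isOpen_univ, Pool.Agent.U524.RO.GP_dense T, ?_⟩
    rintro q ⟨z, -, hz⟩
    exact ⟨z, simple_of_simp _ _ _ _ hz⟩

end Pool.Agent.Results.MP_f981b0_an.GenericRankOne
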