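import Pool.Agent.Y280.EllTyp
import Pool.Agent.Y280.GSot
import Pool.Agent.Y280.Transf

/-!
# MP_f981b0_an: typical positive contractions of `ℓ_p`
-/

set_option autoImplicit false
open Finset TopologicalSpace Pool.Agent.Y280
open scoped ENNReal ComplexOrder

namespace Pool.Agent.Results.MP_f981b0_an.TypicalPositiveContractions

variable {E : Type} [NormedAddCommGroup E] [NormedSpace ℂ E]

/-- The positive contractions, with respect to the coordinates `c`. -/
def PosContr (c : E →ₗ[ℂ] (ℕ → ℂ)) : Set (E →L[ℂ] E) :=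
  {T | ‖T‖ ≤ 1 ∧ ∀ x : E, (∀ i, 0 ≤ c x i) → ∀ i, 0 ≤ c (T x) i}

/-- The contractively regular operators with matrix entries in `Φ`: the matrix of the absolute
values of the entries (all its finite sections) is a contraction of `ℓ_p`. -/
def RegContr (p : ℝ) (c : E →ₗ[ℂ] (ℕ → ℂ)) (Φ : Set ℂ) : Set (E →L[ℂ] E) :=
  {T | ∃ a : ℕ → ℕ → ℂ, (∀ (j : ℕ) (y : E), c y = Pi.single j 1 → ∀ i, c (T y) i = a i j) ∧
    (∀ i j, a i j ∈ Φ) ∧ ∀ (N : ℕ) (x : ℕ → ℝ), (∀ j, 0 ≤ x j) →
      ∑ i ∈ range N, (∑ j ∈ range N, ‖a i j‖ * x j) ^ p ≤ ∑ j ∈ range N, x j ^ p}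

/-- The statement for the classes in Mathlib's `lp`. -/
lemma typ_cls {P : ℝ≥0∞} [Fact (1 ≤ P)] (hP1 : 1 < P) (hPt : P ≠ ∞) {Φ : Set ℂ}
    (hΦ : IsClosed Φ) (h0 : (0 : ℂ) ∈ Φ) (h1 : (1 : ℂ) ∈ Φ)
    (hsc : ∀ z ∈ Φ, ∀ r : ℝ, 0 ≤ r → r ≤ 1 → (r : ℂ) * z ∈ Φ)
    (t : TopologicalSpace (Cls P Φ)) (ht : t = SOT (Cls P Φ) ∨ t = SOTStar (Cls P Φ)) :
    (Cls P Φ).Nonempty ∧ @IsCompletelyMetrizableSpace (Cls P Φ) t ∧
      @BaireSpace (Cls P Φ) t ∧
      {T : Cls P Φ | DenselyInvariant (T : EP P →L[ℂ] EP P)} ∈ @residual (Cls P Φ) t := by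
  have hcm1 := cls_cm_sot hP1 hPt hΦ
  have hcm2 := cls_cm_sotStar hP1 hPt hΦ
  have hgood : ∀ T : Cls P Φ, Good (T : EP P →L[ℂ] EP P) →
      DenselyInvariant (T : EP P →L[ℂ] EP P) := fun T hT x₀ ε hε => inv_of_good hT x₀ hε
  have hb : ∀ t : TopologicalSpace (Cls P Φ), @IsCompletelyMetrizableSpace (Cls P Φ) t →
      @BaireSpace (Cls P Φ) t := fun t hcm =>
    @BaireSpace.of_completelyPseudoMetrizable _ t
      (@IsCompletelyMetrizableSpace.toIsCompletelyPseudoMetrizableSpace _ t hcm)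
  have hp : 0 < P.toReal := toReal_pos' hPt
  refine ⟨⟨0, ?_, ?_⟩, ?_⟩
  · intro N x hx
    have e : ∀ i j, ent (0 : EP P →L[ℂ] EP P) i j = 0 := fun i j => by simp [ent]
    simp only [e, norm_zero, zero_mul, sum_const_zero]
    rw [Real.zero_rpow hp.ne']
    simp only [sum_const_zero]
    exact sum_nonneg fun j _ => Real.rpow_nonneg (hx j) _
  · intro i j
    have e : ent (0 : EP P →L[ℂ] EP P) i j = 0 := by simp [ent]
    rw [e]
    exact h0
  · rcases ht with rfl | rfl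
    · exact ⟨hcm1, hb _ hcm1, Filter.mem_of_superset
        (cls_typical hP1 hPt h0 h1 hsc (sotStar_le_sot _) le_rfl) fun T hT => hgood T hT⟩
    · exact ⟨hcm2, hb _ hcm2, Filter.mem_of_superset
        (cls_typical hP1 hPt h0 h1 hsc le_rfl (sotStar_le_sot _)) fun T hT => hgood T hT⟩

/-- **Typical positive contractions of `ℓ_p`, `1 < p < ∞`, have nontrivial closed invariant
subspaces**, in the strong and in the strong* operator topology, and so have typical contractively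
regular operators with matrix entries in any closed subset of the plane which contains `0` and `1`
and is star-shaped about `0`. -/
theorem result (p : ℝ) (hp : 1 < p) (c : E →ₗ[ℂ] (ℕ → ℂ)) (hc : IsEllp p c)
    (C : Set (E →L[ℂ] E))
    (hC : C = PosContr c ∨ ∃ Φ : Set ℂ, IsClosed Φ ∧ (0 : ℂ) ∈ Φ ∧ (1 : ℂ) ∈ Φ ∧
      (∀ z ∈ Φ, ∀ r : ℝ, 0 ≤ r → r ≤ 1 → (r : ℂ) * z ∈ Φ) ∧ C = RegContr p c Φ)
    (t : TopologicalSpace C) (ht : t = SOT C ∨ t = SOTStar C) :
    C.Nonempty ∧ @IsCompletelyMetrizableSpace _ t ∧ @BaireSpace _ t ∧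
      {T : C | DenselyInvariant (T : E →L[ℂ] E)} ∈ @residual _ t := by
  have hp0 : 0 < p := zero_lt_one.trans hp
  obtain ⟨P, hP1, hPt, hPr⟩ : ∃ P : ℝ≥0∞, 1 < P ∧ P ≠ ∞ ∧ P.toReal = p := by
    refine ⟨ENNReal.ofReal p, ?_, ENNReal.ofReal_ne_top, ENNReal.toReal_ofReal hp0.le⟩
    rw [← ENNReal.ofReal_one]
    exact (ENNReal.ofReal_lt_ofReal_iff hp0).2 hp
  haveI : Fact (1 ≤ P) := ⟨hP1.le⟩
  have hc' : IsEllp P.toReal c := by rw [hPr]; exact hc
  obtain ⟨e, he⟩ := exists_isometry (by rw [hPr]; exact hp0) hc'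
  rcases hC with rfl | ⟨Φ, hΦ, h0, h1, hsc, rfl⟩
  · refine transfer_typ e (PosContr c) (Cls P {z | 0 ≤ z}) ?_ t ht DenselyInvariant
      DenselyInvariant (denselyInvariant_cj e) fun t' ht' => typ_cls hP1 hPt ?_ ?_ ?_ ?_ t' ht'
    · intro T
      rw [← posC_eq hP1 hPt]
      show (‖T‖ ≤ 1 ∧ _) ↔ (‖cj e T‖ ≤ 1 ∧ _)
      rw [norm_cj]
      refine and_congr_right fun _ => ?_
      constructor
      · intro h x hx i
        rw [cj_apply, he]
        refine h _ (fun k => ?_) i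
        rw [← he, e.apply_symm_apply]
        exact hx k
      · intro h x hx i
        have h2 := h (e x) (fun k => by rw [he]; exact hx k) i
        rwa [cj_apply, e.symm_apply_apply, he] at h2
    · exact isClosed_Ici
    · exact le_refl (0 : ℂ)
    · show (0 : ℂ) ≤ 1
      exact zero_le_one
    · intro z hz r hr0 _
      show (0 : ℂ) ≤ (r : ℂ) * z
      have hz' : (0 : ℂ) ≤ z := hz
      have hr : (0 : ℂ) ≤ (r : ℂ) := by exact_mod_cast hr0
      exact mul_nonneg hr hz'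
  · refine transfer_typ e (RegContr p c Φ) (Cls P Φ) ?_ t ht DenselyInvariant
      DenselyInvariant (denselyInvariant_cj e) fun t' ht' => typ_cls hP1 hPt hΦ h0 h1 hsc t' ht'
    intro T
    have hent : ∀ (i j : ℕ) (y : E), c y = Pi.single j 1 → c (T y) i = ent (cj e T) i j := by
      intro i j y hy
      have h2 : e y = eP P j := by
        ext k
        rw [he, hy, eP_apply, Pi.single_apply]
      rw [ent, cj_apply, he, ← h2, e.symm_apply_apply]
    have hex : ∀ j : ℕ, c (e.symm (eP P j)) = Pi.single j 1 := by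
      intro j
      funext k
      rw [← he, e.apply_symm_apply, eP_apply, Pi.single_apply]
    constructor
    · rintro ⟨a, ha, haΦ, hreg⟩
      have ea : ∀ i j, ent (cj e T) i j = a i j := fun i j => by
        rw [← hent i j _ (hex j), ha j _ (hex j)]
      refine ⟨?_, fun i j => ?_⟩
      · intro N x hx
        simp only [ea, hPr]
        exact hreg N x hx
      · rw [ea]
        exact haΦ i j
    · rintro ⟨hreg, hΦ'⟩
      refine ⟨ent (cj e T), fun j y hy i => hent i j y hy, hΦ', ?_⟩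
      intro N x hx
      have h3 := hreg N x hx
      rwa [hPr] at h3

end Pool.Agent.Results.MP_f981b0_an.TypicalPositiveContractions
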